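import Pool.Agent.Lib.H63L.FIN

/-! # H24F, file Dom: a drawing with fewer crossings

If all crossings of `D` are crossings of `D'`, then every plane subdrawing of `D'` is plane in `D`. -/

set_option autoImplicit false

namespace H24F

open H53P SimpleDraw

variable {n : ℕ}

/-- in a plane subdrawing no two edges cross -/
theorem table_of_plane {D : SimpleDrawing n} {G : SimpleGraph (Fin n)} (hG : D.Plane G) {i j k l : Fin n}
    (hij : G.Adj i j) (hkl : G.Adj k l) : (table D).X i j k l = false := by
  change X D i j k l = false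
  unfold X
  rw [decide_eq_false_iff_not]
  rintro ⟨-, -, h2, h3, h4, h5, p, hp⟩
  have hne : s(i, j) ≠ s(k, l) := by
    intro h6
    rcases Sym2.eq_iff.1 h6 with ⟨h7, -⟩ | ⟨h7, -⟩
    · exact h2 h7
    · exact h3 h7
  obtain ⟨v, hv1, hv2, -⟩ := hG i j k l hij hkl hne p hp
  rcases hv1 with rfl | rfl
  · rcases hv2 with h | h
    · exact h2 h
    · exact h3 h
  · rcases hv2 with h | h
    · exact h4 h
    · exact h5 h

/-- planarity is inherited by drawings with fewer crossings -/
theorem plane_dom {D D' : SimpleDrawing n} (h : ∀ i j k l, (table D).X i j k l = true → (table D').X i j k l = true)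
    {G : SimpleGraph (Fin n)} (hG : D'.Plane G) : D.Plane G := by
  refine H63L.plane_of_table D G fun i j k l hij hkl => ?_
  rw [← Bool.not_eq_true]
  intro h1
  have h2 := h i j k l h1
  rw [table_of_plane hG hij hkl] at h2
  exact Bool.false_ne_true h2

theorem star_dom {D D' : SimpleDrawing n} (h : ∀ i j k l, (table D).X i j k l = true → (table D').X i j k l = true)
    (ih : D'.HasPlaneHamiltonian) : D.HasPlaneHamiltonian := by
  obtain ⟨G, hG, h1, h2⟩ := ih
  exact ⟨G, plane_dom h hG, h1, h2⟩

/-- the same with the crossings written out: `i, j, k, l` are four different vertices and the curves meet -/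
theorem star_dom' {D D' : SimpleDrawing n}
    (h : ∀ i j k l : Fin n, (i ≠ j ∧ k ≠ l ∧ i ≠ k ∧ i ≠ l ∧ j ≠ k ∧ j ≠ l ∧ (D.curve i j ∩ D.curve k l).Nonempty) →
      (i ≠ j ∧ k ≠ l ∧ i ≠ k ∧ i ≠ l ∧ j ≠ k ∧ j ≠ l ∧ (D'.curve i j ∩ D'.curve k l).Nonempty))
    (ih : D'.HasPlaneHamiltonian) : D.HasPlaneHamiltonian := by
  refine star_dom (fun i j k l h1 => ?_) ih
  rw [table_X] at h1 ⊢
  unfold X at h1 ⊢
  rw [@decide_eq_true_iff _ (Classical.dec _)] at h1 ⊢
  exact h i j k l h1

end H24F
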