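import Pool.Agent.Lib.H24F.T1
import Pool.Agent.Lib.H4TR.Sym
import Pool.Agent.Lib.H89M.Sym
import Pool.Agent.Lib.H63L.FIN2

/-!
# H24F, file F2: plane spanning trees between two vertex sets of a simple drawing, from `HZ`
-/

set_option autoImplicit false
set_option linter.unusedSectionVars false

open H53P SimpleDraw

namespace H24F

open Finset H98P H98Z

/-- a set of pairwise non-crossing pairs gives a plane subdrawing -/
theorem plane_of {n : ℕ} (D : SimpleDrawing n) {T : Finset (Sym2 (Fin n))}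
    (hT : ∀ e ∈ T, ∀ f ∈ T, ¬ crossT (table D) e f) :
    D.Plane (SimpleGraph.fromEdgeSet (T : Set (Sym2 (Fin n)))) := by
  apply H63L.plane_of_table
  intro i j k l hij hkl
  rw [← Bool.not_eq_true, ← crossT_mk]
  rw [SimpleGraph.fromEdgeSet_adj] at hij hkl
  exact hT _ hij.1 _ hkl.1

/-- the two edges of a plane subdrawing without common end are disjoint curves -/
theorem disj_of {n : ℕ} (D : SimpleDrawing n) {G : SimpleGraph (Fin n)} (hG : D.Plane G)
    {a b c d : Fin n} (h1 : G.Adj a b) (h2 : G.Adj c d) (h3 : a ≠ c) (h4 : a ≠ d) (h5 : b ≠ c)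
    (h6 : b ≠ d) : Disjoint (D.curve a b) (D.curve c d) := by
  rw [Set.disjoint_iff_inter_eq_empty, ← Set.not_nonempty_iff_eq_empty]
  rintro ⟨p, hp⟩
  obtain ⟨v, hv1, hv2, -⟩ := hG a b c d h1 h2 (by
    intro h
    rcases Sym2.eq_iff.1 h with h | h
    · exact h3 h.1
    · exact h4 h.1) p hp
  rcases hv1 with rfl | rfl <;> rcases hv2 with h | h
  · exact h3 h
  · exact h4 h
  · exact h5 h
  · exact h6 h

/-- a plane spanning tree of the complete bipartite graph with the sides `A`, `B` (parts of the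
definition in the hand-in) -/
def PT {n : ℕ} (D : SimpleDrawing n) (A B : Finset (Fin n)) (G : SimpleGraph (Fin n)) : Prop :=
  D.Plane G ∧ (∀ u v, G.Adj u v → (u ∈ A ∧ v ∈ B) ∨ (u ∈ B ∧ v ∈ A)) ∧
    (G.induce {v | v ∈ A ∨ v ∈ B}).IsTree

theorem pt_of {n : ℕ} (D : SimpleDrawing n) {A B : Finset (Fin n)} (hAB : Disjoint A B)
    (hA : A.Nonempty) {T : Finset (Sym2 (Fin n))}
    (hsub : ∀ e ∈ T, ∃ a ∈ A, ∃ b ∈ B, e = s(a, b)) (hcard : T.card + 1 = A.card + B.card)
    (hconn : ∀ S ⊆ A ∪ B, S.Nonempty → S ≠ A ∪ B → ∃ x ∈ S, ∃ y ∈ (A ∪ B) \ S, s(x, y) ∈ T)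
    (hT : ∀ e ∈ T, ∀ f ∈ T, ¬ crossT (table D) e f) :
    PT D A B (SimpleGraph.fromEdgeSet (T : Set (Sym2 (Fin n)))) := by
  refine ⟨plane_of D hT, ?_, tree_of hAB hA hsub hcard hconn⟩
  intro u v h
  rw [adj_iff hAB hsub] at h
  exact mem_ends hsub h

theorem pt_of_ptree {n : ℕ} (D : SimpleDrawing n) {A B : Finset (Fin n)} (hAB : Disjoint A B)
    (hA : A.Nonempty) {T : Finset (Sym2 (Fin n))} (hT : H4TR.PTree (crossT (table D)) A B T) :
    PT D A B (SimpleGraph.fromEdgeSet (T : Set (Sym2 (Fin n)))) := by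
  refine pt_of D hAB hA hT.sub hT.card ?_ hT.plane
  intro S hS hS1 hS2
  by_contra hcon
  push Not at hcon
  refine hT.conn ⟨S, (A ∪ B) \ S, hS1, ?_, disjoint_sdiff, union_sdiff_of_subset hS, hcon⟩
  rw [sdiff_nonempty]
  exact fun h => hS2 (subset_antisymm hS h)

theorem sub_of_btree {V : Type*} [Fintype V] [DecidableEq V] {cross : Sym2 V → Sym2 V → Prop}
    {A B : Finset V} {T : Finset (Sym2 V)} (hT : H89M.BTree cross A B T) :
    ∀ e ∈ T, ∃ a ∈ A, ∃ b ∈ B, e = s(a, b) := by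
  intro e he
  obtain ⟨a, ha, b, hb, h⟩ := mem_br.1 (hT.sub he)
  exact ⟨a, ha, b, hb, h.symm⟩

theorem pt_of_btree {n : ℕ} (D : SimpleDrawing n) {A B : Finset (Fin n)} (hAB : Disjoint A B)
    (hA : A.Nonempty) {T : Finset (Sym2 (Fin n))} (hT : H89M.BTree (crossT (table D)) A B T) :
    PT D A B (SimpleGraph.fromEdgeSet (T : Set (Sym2 (Fin n)))) :=
  pt_of D hAB hA (sub_of_btree hT) hT.card hT.conn hT.plane

variable {n : ℕ} (D : SimpleDrawing n) (hZ : ∀ W : Finset (Fin n), HZ (crossT (table D)) W)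
  {A B : Finset (Fin n)} (hAB : Disjoint A B) (hA : A.Nonempty) (hB : B.Nonempty)

include hZ hAB hA hB

/-- prescribed degrees on one side -/
theorem degree_drawing {d : Fin n → ℕ} (hd : ∀ a ∈ A, 1 ≤ d a)
    (h : ∑ a ∈ A, d a + 1 = A.card + B.card) :
    ∃ G, PT D A B G ∧ ∀ a ∈ A, (G.neighborSet a).ncard = d a := by
  classical
  obtain ⟨T, hT, hTd⟩ := H4TR.degrees_of_hz (crossT_symm (table D)) (crossT_adj (table D)) hZ hAB hA
    d hd h
  refine ⟨_, pt_of_ptree D hAB hA hT, ?_⟩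
  intro a ha
  rw [degree_of hAB hT.sub a]
  exact hTd a ha

/-- real transport -/
theorem transport_drawing {x : Fin n → ℝ} (hx : ∀ v ∈ A ∪ B, 0 < x v)
    (h : ∑ a ∈ A, x a = ∑ b ∈ B, x b) :
    ∃ G, PT D A B G ∧ ∃ w : Fin n → Fin n → ℝ, (∀ a b, 0 ≤ w a b) ∧ (∀ a b, w a b ≠ 0 → G.Adj a b) ∧
      (∀ a ∈ A, ∑ b ∈ B, w a b = x a) ∧ (∀ b ∈ B, ∑ a ∈ A, w a b = x b) := by
  classical
  obtain ⟨T, hT, w, hw0, hw⟩ := H89M.transport_tree (crossT_symm (table D)) (crossT_adj (table D)) hZ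
    hAB hA hB hx h
  have hsub := sub_of_btree hT
  refine ⟨_, pt_of_btree D hAB hA hT, fun a b => if s(a, b) ∈ T then w s(a, b) else 0, ?_, ?_, ?_, ?_⟩
  · intro a b
    by_cases h1 : s(a, b) ∈ T
    · simp only [h1, if_true]
      exact hw0 _ h1
    · simp only [h1, if_false]
      exact le_refl _
  · intro a b h1
    by_contra h2
    apply h1
    rw [adj_iff hAB hsub] at h2
    exact if_neg h2
  · intro a ha
    rw [← hw a (mem_union_left _ ha)]
    have hset : T.filter (fun e => a ∈ e) = (B.filter fun b => s(a, b) ∈ T).image fun b => s(a, b) := by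
      ext e
      rw [mem_filter, mem_image]
      constructor
      · rintro ⟨h2, h3⟩
        obtain ⟨b, rfl⟩ := Sym2.mem_iff_exists.1 h3
        refine ⟨b, mem_filter.2 ⟨?_, h2⟩, rfl⟩
        rcases mem_ends hsub h2 with h4 | h4
        · exact h4.2
        · exact absurd h4.1 (disjoint_left.1 hAB ha)
      · rintro ⟨b, h2, rfl⟩
        exact ⟨(mem_filter.1 h2).2, Sym2.mem_mk_left _ _⟩
    rw [hset, sum_image (fun j _ k _ h => Sym2.congr_right.1 h), sum_filter]
  · intro b hb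
    rw [← hw b (mem_union_right _ hb)]
    have hset : T.filter (fun e => b ∈ e) = (A.filter fun a => s(a, b) ∈ T).image fun a => s(a, b) := by
      ext e
      rw [mem_filter, mem_image]
      constructor
      · rintro ⟨h2, h3⟩
        obtain ⟨a, rfl⟩ := Sym2.mem_iff_exists.1 h3
        refine ⟨a, mem_filter.2 ⟨?_, by rw [Sym2.eq_swap]; exact h2⟩, Sym2.eq_swap⟩
        rcases mem_ends hsub h2 with h4 | h4
        · exact absurd hb (disjoint_left.1 hAB h4.1)
        · exact h4.2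
      · rintro ⟨a, h2, rfl⟩
        exact ⟨(mem_filter.1 h2).2, Sym2.mem_mk_right _ _⟩
    rw [hset, sum_image (fun j _ k _ h => Sym2.congr_left.1 h), sum_filter]

/-- a perfect matching inside a plane spanning tree -/
theorem matching_drawing (h : A.card = B.card) :
    ∃ G, PT D A B G ∧ ∃ f : A ≃ B, (∀ a : A, G.Adj a.1 (f a).1) ∧
      ∀ a a' : A, a ≠ a' → Disjoint (D.curve a.1 (f a).1) (D.curve a'.1 (f a').1) := by
  classical
  obtain ⟨T, hT, f, hf⟩ := H4TR.matching_of_hz (crossT_symm (table D)) (crossT_adj (table D)) hZ hAB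
    hA h
  have hP := pt_of_ptree D hAB hA hT
  have had : ∀ a : A, (SimpleGraph.fromEdgeSet (T : Set (Sym2 (Fin n)))).Adj a.1 (f a).1 := by
    intro a
    rw [adj_iff hAB hT.sub]
    exact hf a
  refine ⟨_, hP, f, had, ?_⟩
  intro a a' haa
  refine disj_of D hP.1 (had a) (had a') (fun h1 => haa (Subtype.ext h1))
    (fun h1 => disjoint_left.1 hAB a.2 (h1 ▸ (f a').2))
    (fun h1 => disjoint_left.1 hAB a'.2 (h1 ▸ (f a).2))
    (fun h1 => haa (f.injective (Subtype.ext h1)))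

end H24F
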