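import Mathlib

/-!
# H24F, file T1: the tree given by a connected set of `|A| + |B| - 1` pairs between `A` and `B`
-/

set_option autoImplicit false
set_option linter.unusedSectionVars false

namespace H24F

open Finset

variable {V : Type*} [Fintype V] [DecidableEq V]

theorem mem_ends {A B : Finset V} {T : Finset (Sym2 V)}
    (hsub : ∀ e ∈ T, ∃ a ∈ A, ∃ b ∈ B, e = s(a, b)) {u v : V} (h : s(u, v) ∈ T) :
    (u ∈ A ∧ v ∈ B) ∨ (u ∈ B ∧ v ∈ A) := by
  obtain ⟨a, ha, b, hb, h1⟩ := hsub _ h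
  rcases Sym2.eq_iff.1 h1 with ⟨rfl, rfl⟩ | ⟨rfl, rfl⟩
  · exact Or.inl ⟨ha, hb⟩
  · exact Or.inr ⟨hb, ha⟩

theorem not_diag {A B : Finset V} (hAB : Disjoint A B) {T : Finset (Sym2 V)}
    (hsub : ∀ e ∈ T, ∃ a ∈ A, ∃ b ∈ B, e = s(a, b)) {u v : V} (h : s(u, v) ∈ T) : u ≠ v := by
  rintro rfl
  rcases mem_ends hsub h with h1 | h1
  · exact disjoint_left.1 hAB h1.1 h1.2
  · exact disjoint_left.1 hAB h1.2 h1.1

theorem adj_iff {A B : Finset V} (hAB : Disjoint A B) {T : Finset (Sym2 V)}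
    (hsub : ∀ e ∈ T, ∃ a ∈ A, ∃ b ∈ B, e = s(a, b)) (u v : V) :
    (SimpleGraph.fromEdgeSet (T : Set (Sym2 V))).Adj u v ↔ s(u, v) ∈ T := by
  rw [SimpleGraph.fromEdgeSet_adj]
  exact ⟨fun h => h.1, fun h => ⟨h, not_diag hAB hsub h⟩⟩

theorem tree_of {A B : Finset V} (hAB : Disjoint A B) (hA : A.Nonempty) {T : Finset (Sym2 V)}
    (hsub : ∀ e ∈ T, ∃ a ∈ A, ∃ b ∈ B, e = s(a, b)) (hcard : T.card + 1 = A.card + B.card)
    (hconn : ∀ S ⊆ A ∪ B, S.Nonempty → S ≠ A ∪ B → ∃ x ∈ S, ∃ y ∈ (A ∪ B) \ S, s(x, y) ∈ T) :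
    ((SimpleGraph.fromEdgeSet (T : Set (Sym2 V))).induce {v | v ∈ A ∨ v ∈ B}).IsTree := by
  classical
  obtain ⟨G, hG⟩ : ∃ G, G = SimpleGraph.fromEdgeSet (T : Set (Sym2 V)) := ⟨_, rfl⟩
  have hadj : ∀ u v, G.Adj u v ↔ s(u, v) ∈ T := fun u v => by
    rw [hG]
    exact adj_iff hAB hsub u v
  rw [← hG]
  rw [SimpleGraph.isTree_iff_connected_and_card]
  constructor
  · obtain ⟨v0, hv0⟩ := hA
    have hne : Nonempty {v | v ∈ A ∨ v ∈ B} := ⟨⟨v0, Or.inl hv0⟩⟩
    refine { preconnected := ?_, nonempty := hne }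
    intro u w
    by_contra hcon
    obtain ⟨S, hS⟩ : ∃ S, S = (A ∪ B).filter fun x =>
        ∃ h : x ∈ {v | v ∈ A ∨ v ∈ B}, (G.induce {v | v ∈ A ∨ v ∈ B}).Reachable u ⟨x, h⟩ := ⟨_, rfl⟩
    have hmem : ∀ x (h : x ∈ {v | v ∈ A ∨ v ∈ B}), x ∈ S ↔
        (G.induce {v | v ∈ A ∨ v ∈ B}).Reachable u ⟨x, h⟩ := by
      intro x h
      rw [hS, mem_filter]
      exact ⟨fun h1 => h1.2.2, fun h1 => ⟨mem_union.2 h, h, h1⟩⟩
    have huS : u.1 ∈ S := (hmem u.1 u.2).2 (SimpleGraph.Reachable.refl u)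
    have hwS : w.1 ∉ S := fun h => hcon ((hmem w.1 w.2).1 h)
    obtain ⟨x, hx, y, hy, hxy⟩ := hconn S (by rw [hS]; exact filter_subset _ _) ⟨_, huS⟩
      (fun h => hwS (by rw [h]; exact mem_union.2 w.2))
    have hxs : x ∈ {v | v ∈ A ∨ v ∈ B} := by
      rw [hS, mem_filter] at hx
      exact hx.2.1
    have hys : y ∈ {v | v ∈ A ∨ v ∈ B} := mem_union.1 (mem_sdiff.1 hy).1
    apply (mem_sdiff.1 hy).2
    rw [hmem y hys]
    refine ((hmem x hxs).1 hx).trans (SimpleGraph.Adj.reachable ?_)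
    rw [SimpleGraph.comap_adj]
    exact (hadj x y).2 hxy
  · have h1 : (Sym2.map Subtype.val) '' (G.induce {v | v ∈ A ∨ v ∈ B}).edgeSet = (T : Set (Sym2 V)) := by
      ext e
      constructor
      · rintro ⟨e', he', rfl⟩
        induction e' with
        | _ x y =>
          rw [SimpleGraph.mem_edgeSet, SimpleGraph.comap_adj] at he'
          exact (hadj _ _).1 he'
      · intro he
        induction e with
        | _ x y =>
          have he1 : s(x, y) ∈ T := he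
          have h2 := mem_ends hsub he1
          have hx : x ∈ {v | v ∈ A ∨ v ∈ B} := by
            rcases h2 with h2 | h2
            · exact Or.inl h2.1
            · exact Or.inr h2.1
          have hy : y ∈ {v | v ∈ A ∨ v ∈ B} := by
            rcases h2 with h2 | h2
            · exact Or.inr h2.2
            · exact Or.inl h2.2
          refine ⟨s(⟨x, hx⟩, ⟨y, hy⟩), ?_, rfl⟩
          rw [SimpleGraph.mem_edgeSet, SimpleGraph.comap_adj]
          exact (hadj x y).2 he1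
    have h2 : (G.induce {v | v ∈ A ∨ v ∈ B}).edgeSet.ncard = T.card := by
      rw [← Set.ncard_image_of_injective _ (Sym2.map.injective Subtype.val_injective), h1,
        Set.ncard_coe_finset]
    have h3 : Nat.card {v | v ∈ A ∨ v ∈ B} = A.card + B.card := by
      rw [← card_union_of_disjoint hAB, Nat.card_coe_set_eq, ← Set.ncard_coe_finset]
      congr 1
      ext v
      simp
    rw [Nat.card_coe_set_eq, h2, hcard, h3]

theorem degree_of {A B : Finset V} (hAB : Disjoint A B) {T : Finset (Sym2 V)}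
    (hsub : ∀ e ∈ T, ∃ a ∈ A, ∃ b ∈ B, e = s(a, b)) (a : V) :
    ((SimpleGraph.fromEdgeSet (T : Set (Sym2 V))).neighborSet a).ncard =
      (T.filter fun e => a ∈ e).card := by
  classical
  have h1 : (fun v => s(a, v)) '' (SimpleGraph.fromEdgeSet (T : Set (Sym2 V))).neighborSet a =
      ((T.filter fun e => a ∈ e : Finset (Sym2 V)) : Set (Sym2 V)) := by
    ext e
    constructor
    · rintro ⟨v, hv, rfl⟩
      rw [SimpleGraph.mem_neighborSet, adj_iff hAB hsub] at hv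
      rw [mem_coe, mem_filter]
      exact ⟨hv, Sym2.mem_mk_left _ _⟩
    · intro he
      rw [mem_coe, mem_filter] at he
      obtain ⟨v, rfl⟩ := Sym2.mem_iff_exists.1 he.2
      refine ⟨v, ?_, rfl⟩
      rw [SimpleGraph.mem_neighborSet, adj_iff hAB hsub]
      exact he.1
  rw [← Set.ncard_image_of_injective _ (f := fun v => s(a, v))
    (fun v w h => Sym2.congr_right.1 h), h1, Set.ncard_coe_finset]

end H24F
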