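import Pool.Agent.Lib.H5CY.F1

/-! # H24F, file TP: the two paths theorem for an order of the vertices and a cut of it -/

set_option autoImplicit false

namespace H24F

open H53P SimpleDraw

theorem edges_get {V : Type*} {l : List V} {e : V × V} (h : e ∈ edges l) :
    ∃ (k : ℕ) (hk : k + 1 < l.length), e = (l[k], l[k + 1]) := by
  unfold edges at h
  obtain ⟨k, hk, rfl⟩ := List.mem_iff_getElem.1 h
  have h1 : k < (l.zip l.tail).length := hk
  rw [List.length_zip, List.length_tail] at h1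
  refine ⟨k, by omega, ?_⟩
  rw [List.getElem_zip, List.getElem_tail]

/-- The two paths theorem for an order `σ` of the vertices, cut before the position `m`. -/
theorem two_paths_perm {n : ℕ} (hn : 3 ≤ n) (D : SimpleDrawing n) (σ : Equiv.Perm (Fin n)) {m : ℕ} (hm : 0 < m)
    (hmn : m < n)
    (h : ∀ i i' j j' : Fin n, i ≠ j → i ≠ j' → i' ≠ j → i' ≠ j' → (i : ℕ) + 1 = i' → (i' : ℕ) ≠ m →
      (((j : ℕ) < m ∧ m ≤ (j' : ℕ)) ∨ ((j : ℕ) + 1 = j' ∧ (j' : ℕ) ≠ m)) →
      Disjoint (D.curve (σ i) (σ i')) (D.curve (σ j) (σ j'))) : D.HasPlaneHamiltonian := by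
  classical
  obtain ⟨P, hP⟩ : ∃ P : List (Fin n), P = List.ofFn fun i : Fin m => σ ⟨i, lt_trans i.2 hmn⟩ := ⟨_, rfl⟩
  obtain ⟨Q, hQ⟩ : ∃ Q : List (Fin n), Q = List.ofFn fun i : Fin (n - m) => σ ⟨m + i, by omega⟩ := ⟨_, rfl⟩
  have lP : P.length = m := by rw [hP, List.length_ofFn]
  have lQ : Q.length = n - m := by rw [hQ, List.length_ofFn]
  have memP : ∀ x, x ∈ P ↔ ∃ i : Fin n, (i : ℕ) < m ∧ σ i = x := by
    intro x
    rw [hP, List.mem_ofFn]
    constructor
    · rintro ⟨i, hi⟩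
      exact ⟨⟨i, lt_trans i.2 hmn⟩, i.2, hi⟩
    · rintro ⟨i, hi, hx⟩
      exact ⟨⟨i, hi⟩, hx⟩
  have memQ : ∀ x, x ∈ Q ↔ ∃ i : Fin n, m ≤ (i : ℕ) ∧ σ i = x := by
    intro x
    rw [hQ, List.mem_ofFn]
    constructor
    · rintro ⟨i, hi⟩
      exact ⟨⟨m + i, by omega⟩, Nat.le_add_right _ _, hi⟩
    · rintro ⟨i, hi, hx⟩
      refine ⟨⟨i - m, by omega⟩, ?_⟩
      rw [← hx]
      congr 1
      apply Fin.ext
      change m + ((i : ℕ) - m) = i
      omega
  -- a consecutive pair of one of the lists is a consecutive pair of the order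
  have cons : ∀ e ∈ edges P ++ edges Q, ∃ i i' : Fin n, (i : ℕ) + 1 = i' ∧ (i' : ℕ) ≠ m ∧ e = (σ i, σ i') := by
    intro e he
    rcases List.mem_append.1 he with he | he
    · obtain ⟨k, hk, rfl⟩ := edges_get he
      have hk' : k + 1 < m := by omega
      refine ⟨⟨k, by omega⟩, ⟨k + 1, by omega⟩, rfl, ?_, ?_⟩
      · change k + 1 ≠ m
        omega
      · subst hP
        simp
    · obtain ⟨k, hk, rfl⟩ := edges_get he
      have hk' : k + 1 < n - m := by omega
      refine ⟨⟨m + k, by omega⟩, ⟨m + (k + 1), by omega⟩, rfl, ?_, ?_⟩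
      · change m + (k + 1) ≠ m
        omega
      · subst hQ
        simp
  -- disjoint curves do not cross
  have X0 : ∀ i i' j j' : Fin n, (i : ℕ) + 1 = i' → (i' : ℕ) ≠ m →
      (((j : ℕ) < m ∧ m ≤ (j' : ℕ)) ∨ ((j : ℕ) + 1 = j' ∧ (j' : ℕ) ≠ m)) →
      (table D).X (σ j) (σ j') (σ i) (σ i') = false := by
    intro i i' j j' h1 h2 h3
    change X D (σ j) (σ j') (σ i) (σ i') = false
    unfold X
    rw [decide_eq_false_iff_not]
    rintro ⟨-, -, g1, g2, g3, g4, p, hp⟩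
    exact Set.disjoint_left.1 (h i i' j j' (fun e => g1 (by rw [e])) (fun e => g3 (by rw [e]))
      (fun e => g2 (by rw [e])) (fun e => g4 (by rw [e])) h1 h2 h3) hp.2 hp.1
  refine H5CY.two_paths hn D (P := P) (Q := Q) ?_ ?_ ?_ ?_ ?_ ?_
  · intro h0
    rw [h0] at lP
    change 0 = m at lP
    omega
  · intro h0
    rw [h0] at lQ
    change 0 = n - m at lQ
    omega
  · rw [List.nodup_append]
    refine ⟨?_, ?_, ?_⟩
    · rw [hP, List.nodup_ofFn]
      intro i j hij
      have := congrArg Fin.val (σ.injective hij)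
      exact Fin.ext this
    · rw [hQ, List.nodup_ofFn]
      intro i j hij
      have h1 := congrArg Fin.val (σ.injective hij)
      change m + (i : ℕ) = m + j at h1
      exact Fin.ext (by omega)
    · intro x hx y hy hxy
      obtain ⟨i, hi, hix⟩ := (memP x).1 hx
      obtain ⟨j, hj, hjy⟩ := (memQ y).1 hy
      have h1 : i = j := σ.injective (by rw [hix, hjy, hxy])
      rw [h1] at hi
      omega
  · intro v
    rw [List.mem_append, memP, memQ]
    rcases lt_or_ge ((σ.symm v : Fin n) : ℕ) m with h1 | h1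
    · exact Or.inl ⟨_, h1, σ.apply_symm_apply v⟩
    · exact Or.inr ⟨_, h1, σ.apply_symm_apply v⟩
  · intro e he x hx y hy
    obtain ⟨i, i', h1, h2, rfl⟩ := cons e he
    obtain ⟨j, hj, rfl⟩ := (memP x).1 hx
    obtain ⟨k, hk, rfl⟩ := (memQ y).1 hy
    exact X0 i i' j k h1 h2 (Or.inl ⟨hj, hk⟩)
  · intro e he f hf
    obtain ⟨i, i', h1, h2, rfl⟩ := cons e he
    obtain ⟨j, j', h3, h4, rfl⟩ := cons f hf
    exact X0 j j' i i' h3 h4 (Or.inr ⟨h1, h2⟩)

end H24F
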